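import Pool.Agent.Y667.RP.Stm

/-!
# Project RP, part GD: extension of the data by killing primes
-/

set_option autoImplicit false

namespace Pool.Agent.Y678.RP

open Finset Pool.Agent.W262.RK Pool.Agent.W307.RT Pool.Agent.W307.RS Pool.Agent.W307.SE
  Pool.Agent.W307.FK Pool.Agent.Y667.RP

theorem one_mem_V0 (s : Fin 3 → ℕ) (E : Finset ℕ) : ((1 : ℤ), (1 : ℤ)) ∈ V0 s E := by
  have hp1 : ∀ q : ℕ, q.Prime → ¬ ((q : ℤ) ∣ 1) := by
    intro q hq h
    have : q ∣ 1 := by exact_mod_cast h
    exact hq.one_lt.ne' (Nat.dvd_one.1 this)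
  refine ⟨squarefree_one, squarefree_one, one_pos, by norm_num, fun q hq h => (hp1 q hq h).elim,
    fun q hq h => (hp1 q hq h).elim, ?_⟩
  intro p hp j hj
  have hp' := (Nat.mem_primeFactors.1 hp).1
  have h1 : dv p 1 = false := by
    unfold dv
    exact decide_eq_false (hp1 p hp')
  have h2 : sgn p 1 = false := by
    unfold sgn sg0
    simp
  show LR j _ (dv p 1) (dv p 1) (sgn p 1) (sgn p 1)
  rw [h1, h2]
  unfold LR
  fin_cases j <;> simp

theorem sgn_true {p : ℕ} (hp : p.Prime) {D : ℤ} (h : jacobiSym D p = -1) : sgn p D = true := by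
  have h0 : jacobiSym D p ≠ 0 := by rw [h]; norm_num
  have hg : Int.gcd D p = 1 := by
    by_contra hg
    haveI : NeZero p := ⟨hp.ne_zero⟩
    exact h0 (jacobiSym.eq_zero_iff_not_coprime.2 hg)
  unfold sgn sg0
  rw [hg]
  simp [h]

theorem prod_upd (s : Fin 3 → ℕ) (j : Fin 3) (p : ℕ) :
    ∏ i, Function.update s j (s j * p) i = (∏ i, s i) * p := by
  fin_cases j <;> simp [Fin.prod_univ_three, Function.update] <;> ring

theorem mu_nonneg (s : Fin 3 → ℕ) : 0 ≤ mu s := by
  unfold mu
  positivity

theorem mu_eq (s : Fin 3 → ℕ) :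
    mu s = (1 / 2) ^ (∏ j, s j).primeFactors.card * (1 / ((∏ j, s j : ℕ) : ℝ)) := by
  unfold mu
  rw [Nat.cast_prod, Finset.prod_div_distrib, Finset.prod_const_one]

theorem pf_mul {m p : ℕ} (hm : m ≠ 0) (hp : p.Prime) :
    (m * p).primeFactors = insert p m.primeFactors := by
  rw [Nat.primeFactors_mul hm hp.ne_zero, hp.primeFactors]
  ext x
  simp [or_comm]

theorem mu_upd {s : Fin 3 → ℕ} (hs : ∏ j, s j ≠ 0) (j : Fin 3) {p : ℕ} (hp : p.Prime)
    (hps : ¬ p ∣ ∏ j, s j) :
    mu (Function.update s j (s j * p)) = mu s * (1 / (2 * p)) := by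
  rw [mu_eq, mu_eq, prod_upd, pf_mul hs hp, Finset.card_insert_of_notMem, pow_succ]
  · push_cast
    have h1 : (p : ℝ) ≠ 0 := by exact_mod_cast hp.ne_zero
    have h2 : (∏ i, (s i : ℝ)) ≠ 0 := by
      have : ((∏ j, s j : ℕ) : ℝ) ≠ 0 := by exact_mod_cast hs
      rwa [Nat.cast_prod] at this
    field_simp
  · intro h
    exact hps (Nat.dvd_of_mem_primeFactors h)

/-- the primes of the `i`-th interval -/
def II (Y : ℕ → ℕ) (i : ℕ) : Finset ℕ := (Ioc (Y i) (Y i ^ 2)).filter Nat.Prime

theorem II_disj {Y : ℕ → ℕ} (hY : ∀ i j, i < j → Y i ^ 2 ≤ Y j) {i j p : ℕ} (hij : i < j)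
    (hi : p ∈ II Y i) (hj : p ∈ II Y j) : False := by
  unfold II at hi hj
  rw [mem_filter, mem_Ioc] at hi hj
  have := hY i j hij
  omega

/-- the property of the extensions -/
def ExtP (Y : ℕ → ℕ) (r : ℕ) (s : Fin 3 → ℕ) (E : Finset ℕ) (t : (Fin 3 → ℕ) × Finset ℕ) : Prop :=
  V0 t.1 t.2 = {(1, 1)} ∧ Squarefree (∏ j, t.1 j) ∧ Odd (∏ j, t.1 j) ∧
    t.2 ⊆ (∏ j, t.1 j).primeFactors ∧ (∀ j, s j ∣ t.1 j) ∧
    (∀ p ∈ (∏ j, t.1 j).primeFactors, p ∣ ∏ j, s j ∨ ∃ i < r, p ∈ II Y i) ∧
    t.2 ∩ (∏ j, s j).primeFactors = E ∧ ∏ j, t.1 j ≤ (∏ j, s j) * ∏ i ∈ range r, Y i ^ 2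

theorem ext_data (hK : St_KILL) (hV : St_V0N) {c : ℝ} (hc : 0 < c) (hc1 : c ≤ 1) (Y : ℕ → ℕ)
    (hY2 : ∀ i, 2 ≤ Y i) (hY : ∀ i j, i < j → Y i ^ 2 ≤ Y j) :
    ∀ (r : ℕ) (s : Fin 3 → ℕ) (E : Finset ℕ), Squarefree (∏ j, s j) → Odd (∏ j, s j) →
      E ⊆ (∏ j, s j).primeFactors → (V0 s E).ncard ≤ 2 ^ r →
      (∀ i < r, ∀ p ∈ II Y i, ¬ p ∣ ∏ j, s j) →
      (∀ w ∈ V0 s E, ∀ D : ℤ, (D = w.1 ∨ D = w.2) → D ≠ 1 → ∀ i < r,
        c ≤ ∑ p ∈ (Ioc (Y i) (Y i ^ 2)).filter (fun p : ℕ => p.Prime ∧ jacobiSym D p = -1),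
          (1 : ℝ) / p) →
      ∃ Ω : Finset ((Fin 3 → ℕ) × Finset ℕ), (∀ t ∈ Ω, ExtP Y r s E t) ∧
        c ^ r * mu s ≤ ∑ t ∈ Ω, mu t.1 := by
  classical
  intro r
  induction r with
  | zero =>
    intro s E hsq hodd hE hn _ _
    have hV' : V0 s E = {(1, 1)} := by
      obtain ⟨hfin, _⟩ := hV s E hsq hodd
      have h1 := (Set.ncard_le_one hfin).1 (by simpa using hn)
      exact Set.Subset.antisymm (fun w hw => h1 w hw _ (one_mem_V0 s E))
        (Set.singleton_subset_iff.2 (one_mem_V0 s E))
    refine ⟨{(s, E)}, ?_, ?_⟩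
    · intro t ht
      rw [mem_singleton] at ht
      subst ht
      exact ⟨hV', hsq, hodd, hE, fun _ => dvd_rfl,
        fun p hp => Or.inl (Nat.dvd_of_mem_primeFactors hp), Finset.inter_eq_left.2 hE, by simp⟩
    · simp
  | succ r ih =>
    intro s E hsq hodd hE hn hI hS
    by_cases hV' : V0 s E = {(1, 1)}
    · refine ⟨{(s, E)}, ?_, ?_⟩
      · intro t ht
        rw [mem_singleton] at ht
        subst ht
        refine ⟨hV', hsq, hodd, hE, fun _ => dvd_rfl,
          fun p hp => Or.inl (Nat.dvd_of_mem_primeFactors hp), Finset.inter_eq_left.2 hE, ?_⟩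
        refine Nat.le_mul_of_pos_right _ (Finset.prod_pos fun i _ => ?_)
        have := hY2 i
        positivity
      · rw [sum_singleton]
        have := mu_nonneg s
        have h2 : c ^ (r + 1) ≤ 1 := pow_le_one₀ hc.le hc1
        nlinarith
    · -- a class to kill
      have hex : ∃ w ∈ V0 s E, w ≠ (1, 1) := by
        by_contra hcon
        push Not at hcon
        exact hV' (Set.Subset.antisymm (fun w hw => hcon w hw)
          (Set.singleton_subset_iff.2 (one_mem_V0 s E)))
      obtain ⟨w, hw, hw1⟩ := hex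
      have hjD : ∃ (j : Fin 3) (D : ℤ), (D = w.1 ∨ D = w.2) ∧ D ≠ 1 ∧
          ∀ p : ℕ, p.Prime → jacobiSym D p = -1 → phi j (sgn p w.1) (sgn p w.2) = true := by
        by_cases h2 : w.2 = 1
        · refine ⟨2, w.1, Or.inl rfl, ?_, ?_⟩
          · intro h1
            exact hw1 (Prod.ext h1 h2)
          · intro p hp h
            unfold phi
            simp [sgn_true hp h]
        · refine ⟨1, w.2, Or.inr rfl, h2, ?_⟩
          intro p hp h
          unfold phi
          simp [sgn_true hp h]
      obtain ⟨j, D, hD, hD1, hphi⟩ := hjD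
      set P := (Ioc (Y r) (Y r ^ 2)).filter (fun p : ℕ => p.Prime ∧ jacobiSym D p = -1) with hP
      have hsum := hS w hw D hD hD1 r (Nat.lt_succ_self r)
      have hs0 : ∏ j, s j ≠ 0 := hsq.ne_zero
      have hPp : ∀ p ∈ P, p.Prime ∧ p ≠ 2 ∧ (¬ p ∣ ∏ j, s j) ∧ p ∈ II Y r ∧ p ≤ Y r ^ 2 ∧
          jacobiSym D p = -1 := by
        intro p hp
        rw [hP, mem_filter, mem_Ioc] at hp
        have hpI : p ∈ II Y r := by
          unfold II
          rw [mem_filter, mem_Ioc]
          exact ⟨hp.1, hp.2.1⟩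
        have h2 := hY2 r
        exact ⟨hp.2.1, by omega, hI r (Nat.lt_succ_self r) p hpI, hpI, hp.1.2, hp.2.2⟩
      set EE : ℕ → Bool → Finset ℕ := fun p b => if b then insert p E else E with hEE
      have hEsub : ∀ p ∈ P, p ∉ E := by
        intro p hp h
        exact (hPp p hp).2.2.1 (Nat.dvd_of_mem_primeFactors (hE h))
      have hEE1 : ∀ p ∈ P, ∀ b, EE p b ∩ (∏ j, s j).primeFactors = E := by
        intro p hp b
        have hpn : p ∉ (∏ j, s j).primeFactors :=
          fun h => (hPp p hp).2.2.1 (Nat.dvd_of_mem_primeFactors h)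
        cases b
        · simpa [hEE] using hE
        · simp only [hEE, if_true]
          rw [Finset.insert_inter_of_notMem hpn]
          exact Finset.inter_eq_left.2 hE
      have hOm : ∀ p ∈ P, ∀ b : Bool, ∃ Ω : Finset ((Fin 3 → ℕ) × Finset ℕ),
          (∀ t ∈ Ω, ExtP Y r (Function.update s j (s j * p)) (EE p b) t) ∧
          c ^ r * mu (Function.update s j (s j * p)) ≤ ∑ t ∈ Ω, mu t.1 := by
        intro p hp b
        obtain ⟨hpp, hp2, hps, hpI, hple, hjac⟩ := hPp p hp
        have hkill := hK s E (EE p b) w p j hsq hodd hw hpp hp2 hps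
          (by rw [hEE1 p hp b]; exact (Finset.inter_eq_left.2 hE).symm) (hphi p hpp hjac)
        have hpr := prod_upd s j p
        apply ih
        · rw [hpr]
          exact (Nat.squarefree_mul ((Nat.coprime_comm.1 ((Nat.Prime.coprime_iff_not_dvd hpp).2 hps)))).2
            ⟨hsq, hpp.prime.squarefree⟩
        · rw [hpr]
          exact hodd.mul (hpp.odd_of_ne_two hp2)
        · rw [hpr, pf_mul hs0 hpp]
          cases b
          · exact hE.trans (Finset.subset_insert _ _)
          · exact Finset.insert_subset_insert _ hE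
        · have h1 := hkill.2
          have h2 : 2 * (V0 (Function.update s j (s j * p)) (EE p b)).ncard ≤ 2 ^ (r + 1) :=
            h1.trans hn
          rw [pow_succ] at h2
          omega
        · intro i hi q hq
          rw [hpr]
          intro hdvd
          have hqp : q.Prime := by
            unfold II at hq
            exact (mem_filter.1 hq).2
          rcases (hqp.dvd_mul).1 hdvd with h | h
          · exact hI i (Nat.lt_succ_of_lt hi) q hq h
          · have : q = p := (Nat.prime_dvd_prime_iff_eq hqp hpp).1 h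
            subst this
            exact II_disj hY hi hq hpI
        · intro w' hw' D' hD' hD1' i hi
          exact hS w' (hkill.1 hw') D' hD' hD1' i (Nat.lt_succ_of_lt hi)
      choose! Om hOm1 hOm2 using hOm
      refine ⟨(P ×ˢ (univ : Finset Bool)).biUnion (fun x => Om x.1 x.2), ?_, ?_⟩
      · intro t ht
        rw [mem_biUnion] at ht
        obtain ⟨⟨p, b⟩, hx, ht⟩ := ht
        rw [mem_product] at hx
        have hp := hx.1
        dsimp only at hp ht
        obtain ⟨hpp, hp2, hps, hpI, hple, hjac⟩ := hPp p hp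
        obtain ⟨h1, h2, h3, h4, h5, h6, h7, h8⟩ := hOm1 p hp b t ht
        have hpr := prod_upd s j p
        rw [hpr] at h6 h7 h8
        refine ⟨h1, h2, h3, h4, ?_, ?_, ?_, ?_⟩
        · intro i
          refine dvd_trans ?_ (h5 i)
          by_cases hij : i = j
          · subst hij
            simp
          · rw [Function.update_of_ne hij]
        · intro q hq
          have hqp := (Nat.mem_primeFactors.1 hq).1
          rcases h6 q hq with h | ⟨i, hi, h⟩
          · rcases (hqp.dvd_mul).1 h with h | h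
            · exact Or.inl h
            · have : q = p := (Nat.prime_dvd_prime_iff_eq hqp hpp).1 h
              subst this
              exact Or.inr ⟨r, Nat.lt_succ_self r, hpI⟩
          · exact Or.inr ⟨i, Nat.lt_succ_of_lt hi, h⟩
        · have h9 : (∏ j, s j).primeFactors ⊆ ((∏ j, s j) * p).primeFactors := by
            rw [pf_mul hs0 hpp]
            exact Finset.subset_insert _ _
          calc t.2 ∩ (∏ j, s j).primeFactors
              = t.2 ∩ (((∏ j, s j) * p).primeFactors ∩ (∏ j, s j).primeFactors) := by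
                rw [Finset.inter_eq_right.2 h9]
            _ = (t.2 ∩ ((∏ j, s j) * p).primeFactors) ∩ (∏ j, s j).primeFactors := by
                rw [Finset.inter_assoc]
            _ = EE p b ∩ (∏ j, s j).primeFactors := by rw [h7]
            _ = E := hEE1 p hp b
        · refine h8.trans ?_
          rw [Finset.prod_range_succ, mul_assoc]
          refine Nat.mul_le_mul_left _ ?_
          rw [mul_comm]
          exact Nat.mul_le_mul_left _ hple
      · rw [Finset.sum_biUnion]
        · calc c ^ (r + 1) * mu s ≤ c ^ r * mu s * ∑ p ∈ P, (1 : ℝ) / p := by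
                rw [pow_succ]
                have h1 : 0 ≤ c ^ r * mu s := mul_nonneg (pow_nonneg hc.le _) (mu_nonneg s)
                calc c ^ r * c * mu s = c ^ r * mu s * c := by ring
                  _ ≤ _ := mul_le_mul_of_nonneg_left hsum h1
            _ = ∑ x ∈ P ×ˢ (univ : Finset Bool), c ^ r * mu (Function.update s j (s j * x.1)) := by
                rw [Finset.sum_product, Finset.mul_sum]
                refine Finset.sum_congr rfl fun p hp => ?_
                rw [Fintype.sum_bool, mu_upd hs0 j (hPp p hp).1 (hPp p hp).2.2.1]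
                have : (p : ℝ) ≠ 0 := by exact_mod_cast (hPp p hp).1.ne_zero
                field_simp
                ring
            _ ≤ _ := by
                refine Finset.sum_le_sum fun x hx => ?_
                exact hOm2 x.1 (mem_product.1 hx).1 x.2
        · rintro ⟨p, b⟩ hx ⟨q, b'⟩ hy hne
          rw [Function.onFun, Finset.disjoint_left]
          intro t ht1 ht2
          dsimp only at ht1 ht2
          have hp : p ∈ P := (mem_product.1 (Finset.mem_coe.1 hx)).1
          have hq : q ∈ P := (mem_product.1 (Finset.mem_coe.1 hy)).1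
          obtain ⟨hpp, hp2, hps, hpI, hple, hjac⟩ := hPp p hp
          obtain ⟨hqp, hq2, hqs, hqI, hqle, hqjac⟩ := hPp q hq
          obtain ⟨h1, h2, h3, h4, h5, h6, h7, h8⟩ := hOm1 p hp b t ht1
          obtain ⟨g1, g2, g3, g4, g5, g6, g7, g8⟩ := hOm1 q hq b' t ht2
          rw [prod_upd] at h6 h7 g7
          have ht0 : ∏ j, t.1 j ≠ 0 := h2.ne_zero
          have hqd : q ∣ ∏ j, t.1 j := by
            refine dvd_trans ?_ (Finset.prod_dvd_prod_of_dvd _ _ fun i _ => g5 i)
            rw [prod_upd]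
            exact Dvd.intro_left _ rfl
          have hpq : q = p := by
            rcases h6 q (Nat.mem_primeFactors.2 ⟨hqp, hqd, ht0⟩) with h | ⟨i, hi, h⟩
            · rcases (hqp.dvd_mul).1 h with h | h
              · exact (hqs h).elim
              · exact (Nat.prime_dvd_prime_iff_eq hqp hpp).1 h
            · exact (II_disj hY hi h hqI).elim
          subst hpq
          have hEq : EE q b = EE q b' := by rw [← h7, ← g7]
          have hqE := hEsub q hq
          cases b <;> cases b' <;> simp [hEE] at hEq hne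
          · exact hqE (by rw [hEq]; exact mem_insert_self _ _)
          · exact hqE hEq

end Pool.Agent.Y678.RP
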