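import Pool.Agent.Y678.RP.Ext

/-!
# Project RP, part GD: the base data
-/

set_option autoImplicit false

namespace Pool.Agent.Y678.RP

open Finset Pool.Agent.W262.RK Pool.Agent.W307.RT Pool.Agent.W307.RS Pool.Agent.W307.SE
  Pool.Agent.W307.FK Pool.Agent.Y667.RP

theorem PP_sqf (z y : ℕ) : Squarefree (PP z y) := by
  unfold PP
  refine Finset.squarefree_prod_of_pairwise_isCoprime (fun p hp q hq hpq ↦ ?_) fun p hp => ?_
  · have hp' : p.Prime := (mem_filter.1 (Finset.mem_coe.1 hp)).2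
    have hq' : q.Prime := (mem_filter.1 (Finset.mem_coe.1 hq)).2
    exact Nat.coprime_iff_isRelPrime.1 ((Nat.coprime_primes hp' hq').2 hpq)
  · exact ((mem_filter.1 hp).2).prime.squarefree

theorem dvd_PP {z y p : ℕ} (hp : p.Prime) : p ∣ PP z y ↔ z < p ∧ p ≤ y := by
  unfold PP
  rw [hp.prime.dvd_finsetProd_iff]
  constructor
  · rintro ⟨q, hq, hpq⟩
    have hq' := mem_filter.1 hq
    have := (Nat.prime_dvd_prime_iff_eq hp hq'.2).1 hpq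
    subst this
    exact mem_Ioc.1 hq'.1
  · intro h
    exact ⟨p, mem_filter.2 ⟨mem_Ioc.2 h, hp⟩, dvd_rfl⟩

theorem sqf_dvd {n m : ℕ} (hn : Squarefree n) (hm : m ≠ 0)
    (h : ∀ p : ℕ, p.Prime → p ∣ n → p ∣ m) : n ∣ m := by
  rw [← Nat.prod_primeFactors_of_squarefree hn]
  refine dvd_trans (Finset.prod_dvd_prod_of_subset _ m.primeFactors _ ?_)
    (Nat.prod_primeFactors_dvd m)
  intro p hp
  rw [Nat.mem_primeFactors] at hp ⊢
  exact ⟨hp.1, h p hp.1 hp.2.1, hm⟩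

theorem mem_TupJ {J : Type} [Fintype J] [DecidableEq J] {z y : ℕ} {d : J → ℕ} :
    d ∈ Tup J z y ↔ (∀ i, d i ∈ (PP z y).divisors) ∧ ∀ i j, i ≠ j → (d i).Coprime (d j) := by
  unfold Tup
  rw [mem_filter, Fintype.mem_piFinset]

theorem mem_Tup {z y : ℕ} {s : Fin 3 → ℕ} : s ∈ Tup (Fin 3) z y ↔
    Squarefree (∏ j, s j) ∧ ∀ p : ℕ, p.Prime → p ∣ ∏ j, s j → z < p ∧ p ≤ y := by
  have h0 := (PP_sqf z y).ne_zero
  rw [mem_TupJ]
  constructor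
  · rintro ⟨h1, h2⟩
    have h3 : ∏ j, s j ∣ PP z y := by
      rw [Fin.prod_univ_three]
      refine Nat.Coprime.mul_dvd_of_dvd_of_dvd ?_ ?_ (Nat.dvd_of_mem_divisors (h1 2))
      · exact Nat.Coprime.mul_left (h2 0 2 (by decide)) (h2 1 2 (by decide))
      · exact Nat.Coprime.mul_dvd_of_dvd_of_dvd (h2 0 1 (by decide))
          (Nat.dvd_of_mem_divisors (h1 0)) (Nat.dvd_of_mem_divisors (h1 1))
    refine ⟨(PP_sqf z y).squarefree_of_dvd h3, fun p hp hpd => ?_⟩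
    exact (dvd_PP hp).1 (hpd.trans h3)
  · rintro ⟨h1, h2⟩
    have h3 : ∏ j, s j ∣ PP z y := sqf_dvd h1 h0 fun p hp hpd => (dvd_PP hp).2 (h2 p hp hpd)
    refine ⟨fun j => Nat.mem_divisors.2 ⟨(Finset.dvd_prod_of_mem s (mem_univ j)).trans h3, h0⟩, ?_⟩
    intro i j hij
    have h4 : s i * s j ∣ ∏ j, s j := by
      have : s i * s j = ∏ k ∈ ({i, j} : Finset (Fin 3)), s k := by
        rw [Finset.prod_pair hij]
      rw [this]
      exact Finset.prod_dvd_prod_of_subset _ _ _ (Finset.subset_univ _)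
    exact (Nat.squarefree_mul_iff.1 (h1.squarefree_of_dvd h4)).1

theorem sym_form {P : ℕ} (hP : P ≠ 0) {D : ℤ} (hD : Squarefree D)
    (h : ∀ q : ℕ, q.Prime → (q : ℤ) ∣ D → q ∣ 2 * P) :
    ∃ f : ℕ, f ∣ P ∧ (D = f ∨ D = -f ∨ D = 2 * f ∨ D = -(2 * f)) := by
  have hn : Squarefree D.natAbs := Int.squarefree_natAbs.2 hD
  have hd : D.natAbs ∣ 2 * P := by
    refine sqf_dvd hn (by omega) fun p hp hpd => h p hp ?_
    exact Int.natCast_dvd.2 hpd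
  by_cases h2 : 2 ∣ D.natAbs
  · obtain ⟨f, hf⟩ := h2
    refine ⟨f, ?_, ?_⟩
    · rw [hf] at hd
      exact Nat.dvd_of_mul_dvd_mul_left two_pos hd
    · rcases Int.natAbs_eq D with h' | h' <;> rw [hf] at h' <;> push_cast at h' <;> tauto
  · refine ⟨D.natAbs, ?_, ?_⟩
    · exact (Nat.Coprime.dvd_mul_left (Nat.coprime_comm.1 ((Nat.Prime.coprime_iff_not_dvd Nat.prime_two).2 h2))).1 hd
    · rcases Int.natAbs_eq D with h' | h' <;> tauto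

/-- the set of the bad moduli -/
noncomputable def SB (c : ℝ) (Y : ℕ) : Finset ℕ := by
  classical
  exact (Icc 1 Y).filter (fun f => Odd f ∧ Squarefree f ∧ f ^ 4 ≤ Y ∧ Bad c Y f)

theorem mem_SB {c : ℝ} {Y f : ℕ} (h1 : Odd f) (h2 : Squarefree f) (h3 : f ^ 4 ≤ Y)
    (h4 : Bad c Y f) : f ∈ SB c Y := by
  classical
  unfold SB
  rw [mem_filter, mem_Icc]
  have hf := Nat.pos_of_ne_zero h2.ne_zero
  refine ⟨⟨hf, le_trans ?_ h3⟩, h1, h2, h3, h4⟩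
  calc f = f ^ 1 := (pow_one f).symm
    _ ≤ f ^ 4 := Nat.pow_le_pow_right hf (by norm_num)

theorem SB_prop {c : ℝ} {Y f : ℕ} (h : f ∈ SB c Y) :
    Odd f ∧ Squarefree f ∧ f ^ 4 ≤ Y ∧ Bad c Y f := by
  classical
  unfold SB at h
  rw [mem_filter] at h
  exact h.2

theorem Bad_mono {c c' : ℝ} (hc : c' ≤ c) {Y f : ℕ} (h : Bad c' Y f) : Bad c Y f := by
  obtain ⟨D, h1, h2, h3⟩ := h
  exact ⟨D, h1, h2, h3.trans_le hc⟩

/-- the symbol hypothesis -/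
theorem sym_hyp {c : ℝ} {r : ℕ} {Y : ℕ → ℕ} {s : Fin 3 → ℕ} {E : Finset ℕ}
    (hsq : Squarefree (∏ j, s j)) (hodd : Odd (∏ j, s j))
    (hY : ∀ i < r, (∏ j, s j) ^ 4 ≤ Y i) (hB : ∀ i < r, ∀ f ∈ SB c (Y i), ¬ f ∣ ∏ j, s j) :
    ∀ w ∈ V0 s E, ∀ D : ℤ, (D = w.1 ∨ D = w.2) → D ≠ 1 → ∀ i < r,
        c ≤ ∑ p ∈ (Ioc (Y i) (Y i ^ 2)).filter (fun p : ℕ => p.Prime ∧ jacobiSym D p = -1),
          (1 : ℝ) / p := by
  intro w hw D hD hD1 i hi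
  obtain ⟨hw1, hw2, -, -, hw3, hw4, -⟩ := hw
  have hform : ∃ f : ℕ, f ∣ ∏ j, s j ∧ (D = f ∨ D = -f ∨ D = 2 * f ∨ D = -(2 * f)) := by
    rcases hD with rfl | rfl
    · exact sym_form hsq.ne_zero hw1 fun q hq hqd => Dvd.dvd.mul_left (hw3 q hq hqd) 2
    · exact sym_form hsq.ne_zero hw2 hw4
  obtain ⟨f, hf, hform⟩ := hform
  by_contra hcon
  push Not at hcon
  have hfb : Bad c (Y i) f := ⟨D, hform, hD1, hcon⟩
  refine hB i hi f (mem_SB (hodd.of_dvd_nat hf) (hsq.squarefree_of_dvd hf) ?_ hfb) hf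
  refine le_trans ?_ (hY i hi)
  exact Nat.pow_le_pow_left (Nat.le_of_dvd (Nat.pos_of_ne_zero hsq.ne_zero) hf) 4

end Pool.Agent.Y678.RP
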