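import Pool.Agent.Y678.RP.GD1

/-!
# Project RP, part GD: the measure of the good base data
-/

set_option autoImplicit false

namespace Pool.Agent.Y678.RP

open Finset Pool.Agent.W262.RK Pool.Agent.W307.RT Pool.Agent.W307.RS Pool.Agent.W307.SE
  Pool.Agent.W307.FK Pool.Agent.Y667.RP

/-- the good base data -/
def GB (c : ℝ) (R u : ℕ) (Y : ℕ → ℕ) (y : ℕ) (s : Fin 3 → ℕ) (E : Finset ℕ) : Prop :=
  (V0 s E).ncard ≤ 2 ^ R ∧ (∀ j, (s j : ℝ) ≤ (y : ℝ) ^ (u : ℝ)) ∧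
    ∀ i < R, ∀ f ∈ SB c (Y i), ¬ f ∣ ∏ j, s j

theorem mu_pow (s : Fin 3 → ℕ) :
    mu s * 2 ^ (∏ j, s j).primeFactors.card = ∏ j, 1 / (s j : ℝ) := by
  unfold mu
  have : ((1 : ℝ) / 2) ^ (∏ j, s j).primeFactors.card * 2 ^ (∏ j, s j).primeFactors.card = 1 := by
    rw [← mul_pow]
    norm_num
  calc _ = (((1 : ℝ) / 2) ^ (∏ j, s j).primeFactors.card * 2 ^ (∏ j, s j).primeFactors.card) *
      ∏ j, 1 / (s j : ℝ) := by ring
    _ = _ := by rw [this, one_mul]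

open Classical in
theorem base_pt (hV : St_V0N) {y : ℕ} {R u : ℕ} {Y : ℕ → ℕ} {c : ℝ} {s : Fin 3 → ℕ}
    (hsq : Squarefree (∏ j, s j)) (hodd : Odd (∏ j, s j)) :
    ∏ j, 1 / (s j : ℝ) ≤
      mu s * (((∏ j, s j).primeFactors.powerset.filter (fun E => GB c R u Y y s E)).card : ℝ) +
      4 / 2 ^ R * (mu s * ∑ E ∈ (∏ j, s j).primeFactors.powerset,
        (NL (∏ j, s j) (LF s E) : ℝ)) +
      (if ∃ j, (y : ℝ) ^ (u : ℝ) < s j then ∏ j, 1 / (s j : ℝ) else 0) +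
      ∑ i ∈ range R, ∑ f ∈ SB c (Y i), (if f ∣ ∏ j, s j then ∏ j, 1 / (s j : ℝ) else 0) := by
  have hW : 0 ≤ ∏ j, 1 / (s j : ℝ) := by positivity
  have hmu := mu_nonneg s
  have t1 : 0 ≤ mu s * (((∏ j, s j).primeFactors.powerset.filter
      (fun E => GB c R u Y y s E)).card : ℝ) := by positivity
  have t2 : 0 ≤ 4 / 2 ^ R * (mu s * ∑ E ∈ (∏ j, s j).primeFactors.powerset,
        (NL (∏ j, s j) (LF s E) : ℝ)) := by positivity
  have t3 : 0 ≤ (if ∃ j, (y : ℝ) ^ (u : ℝ) < s j then ∏ j, 1 / (s j : ℝ) else 0) := by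
    split_ifs
    · exact hW
    · exact le_rfl
  have t4' : ∀ i ∈ range R, ∀ f ∈ SB c (Y i),
      0 ≤ (if f ∣ ∏ j, s j then ∏ j, 1 / (s j : ℝ) else 0) := by
    intro i _ f _
    split_ifs
    · exact hW
    · exact le_rfl
  have t4 : 0 ≤ ∑ i ∈ range R, ∑ f ∈ SB c (Y i),
      (if f ∣ ∏ j, s j then ∏ j, 1 / (s j : ℝ) else 0) :=
    Finset.sum_nonneg fun i hi => Finset.sum_nonneg fun f hf => t4' i hi f hf
  by_cases hb : ∃ j, (y : ℝ) ^ (u : ℝ) < s j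
  · rw [if_pos hb] at t3 ⊢
    linarith
  by_cases hf : ∃ i < R, ∃ f ∈ SB c (Y i), f ∣ ∏ j, s j
  · obtain ⟨i, hi, f, hf, hfd⟩ := hf
    have h1 : ∏ j, 1 / (s j : ℝ) ≤ ∑ i ∈ range R, ∑ f ∈ SB c (Y i),
        (if f ∣ ∏ j, s j then ∏ j, 1 / (s j : ℝ) else 0) := by
      calc ∏ j, 1 / (s j : ℝ) = if f ∣ ∏ j, s j then ∏ j, 1 / (s j : ℝ) else 0 := by
            rw [if_pos hfd]
        _ ≤ ∑ f ∈ SB c (Y i), (if f ∣ ∏ j, s j then ∏ j, 1 / (s j : ℝ) else 0) :=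
            Finset.single_le_sum (f := fun f => if f ∣ ∏ j, s j then ∏ j, 1 / (s j : ℝ) else 0)
              (fun f hf => t4' i (mem_range.2 hi) f hf) hf
        _ ≤ _ := Finset.single_le_sum (f := fun i => ∑ f ∈ SB c (Y i),
              (if f ∣ ∏ j, s j then ∏ j, 1 / (s j : ℝ) else 0))
              (fun i hi => Finset.sum_nonneg fun f hf => t4' i hi f hf) (mem_range.2 hi)
    linarith
  -- the main case
  push Not at hb hf
  set PW := (∏ j, s j).primeFactors.powerset with hPW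
  have hcard : (PW.card : ℝ) = 2 ^ (∏ j, s j).primeFactors.card := by
    rw [hPW, Finset.card_powerset]
    push_cast
    rfl
  have h1 : (PW.card : ℝ) ≤ ((PW.filter (fun E => GB c R u Y y s E)).card : ℝ) +
      ((PW.filter (fun E => ¬ GB c R u Y y s E)).card : ℝ) := by
    rw [← Nat.cast_add, Finset.card_filter_add_card_filter_not]
  have h2 : 2 ^ R * ((PW.filter (fun E => ¬ GB c R u Y y s E)).card : ℝ) ≤
      4 * ∑ E ∈ PW, (NL (∏ j, s j) (LF s E) : ℝ) := by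
    calc 2 ^ R * ((PW.filter (fun E => ¬ GB c R u Y y s E)).card : ℝ)
        = ∑ E ∈ PW.filter (fun E => ¬ GB c R u Y y s E), (2 : ℝ) ^ R := by
          rw [Finset.sum_const, nsmul_eq_mul, mul_comm]
      _ ≤ ∑ E ∈ PW.filter (fun E => ¬ GB c R u Y y s E), 4 * (NL (∏ j, s j) (LF s E) : ℝ) := by
          refine Finset.sum_le_sum fun E hE => ?_
          have hE' := (mem_filter.1 hE).2
          have h3 : 2 ^ R < (V0 s E).ncard := by
            by_contra hcon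
            push Not at hcon
            exact hE' ⟨hcon, fun j => hb j, fun i hi f hf' => hf i hi f hf'⟩
          have h4 := (hV s E hsq hodd).2
          have h5 : 2 ^ R ≤ 4 * NL (∏ j, s j) (LF s E) := by omega
          exact_mod_cast h5
      _ ≤ ∑ E ∈ PW, 4 * (NL (∏ j, s j) (LF s E) : ℝ) := by
          refine Finset.sum_le_sum_of_subset_of_nonneg (Finset.filter_subset _ _)
            fun _ _ _ => by positivity
      _ = _ := by rw [Finset.mul_sum]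
  have h3 : ((PW.filter (fun E => ¬ GB c R u Y y s E)).card : ℝ) ≤
      4 / 2 ^ R * ∑ E ∈ PW, (NL (∏ j, s j) (LF s E) : ℝ) := by
    have h2R : (0 : ℝ) < 2 ^ R := by positivity
    rw [div_mul_eq_mul_div, le_div_iff₀ h2R]
    linarith
  have h4 : ∏ j, 1 / (s j : ℝ) ≤ mu s * ((PW.filter (fun E => GB c R u Y y s E)).card : ℝ) +
      4 / 2 ^ R * (mu s * ∑ E ∈ PW, (NL (∏ j, s j) (LF s E) : ℝ)) := by
    rw [← mu_pow, ← hcard]
    calc mu s * (PW.card : ℝ) ≤ mu s * (((PW.filter (fun E => GB c R u Y y s E)).card : ℝ) +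
          4 / 2 ^ R * ∑ E ∈ PW, (NL (∏ j, s j) (LF s E) : ℝ)) := by
          refine mul_le_mul_of_nonneg_left ?_ hmu
          linarith
      _ = _ := by ring
  linarith

open Classical in
theorem base (hV : St_V0N) {z y : ℕ} (hz : 2 ≤ z) {c1 C η L c : ℝ} {R u : ℕ} {Y : ℕ → ℕ}
    (hC : 0 ≤ C) (hL : 0 ≤ L)
    (h1 : c1 * L ≤ ∑ s ∈ Tup (Fin 3) z y, ∏ j, 1 / (s j : ℝ))
    (h3 : ∑ s ∈ (Tup (Fin 3) z y).filter (fun s => ∃ j, (y : ℝ) ^ (u : ℝ) < s j),
      ∏ j, 1 / (s j : ℝ) ≤ c1 / 8 * L)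
    (h4 : ∑ s ∈ Tup (Fin 3) z y, mu s * ∑ E ∈ (∏ j, s j).primeFactors.powerset,
      (NL (∏ j, s j) (LF s E) : ℝ) ≤ C * L)
    (h5 : ∀ f : ℕ, 1 ≤ f → ∑ s ∈ (Tup (Fin 3) z y).filter (fun s => f ∣ ∏ j, s j),
      ∏ j, 1 / (s j : ℝ) ≤ C * ((3 : ℝ) ^ f.primeFactors.card / f) * L)
    (hR : 4 / 2 ^ R * C ≤ c1 / 8)
    (hη : ∀ i < R, ∑ f ∈ SB c (Y i), (3 : ℝ) ^ f.primeFactors.card / f ≤ η)
    (hη2 : R * (C * η) ≤ c1 / 4) :
    c1 / 2 * L ≤ ∑ s ∈ Tup (Fin 3) z y, mu s *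
      (((∏ j, s j).primeFactors.powerset.filter (fun E => GB c R u Y y s E)).card : ℝ) := by
  have hodd : ∀ s ∈ Tup (Fin 3) z y, Odd (∏ j, s j) := by
    intro s hs
    rw [mem_Tup] at hs
    rw [← Nat.not_even_iff_odd, even_iff_two_dvd]
    intro h2
    have := (hs.2 2 Nat.prime_two h2).1
    omega
  have hsum := Finset.sum_le_sum fun s hs =>
    base_pt hV (y := y) (R := R) (u := u) (Y := Y) (c := c) ((mem_Tup.1 hs).1) (hodd s hs)
  rw [Finset.sum_add_distrib, Finset.sum_add_distrib, Finset.sum_add_distrib,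
    ← Finset.mul_sum, ← Finset.sum_filter, Finset.sum_comm] at hsum
  have e4 : ∑ i ∈ range R, ∑ s ∈ Tup (Fin 3) z y, ∑ f ∈ SB c (Y i),
      (if f ∣ ∏ j, s j then ∏ j, 1 / (s j : ℝ) else 0) ≤ R * (C * η) * L := by
    calc _ ≤ ∑ i ∈ range R, C * η * L := by
          refine Finset.sum_le_sum fun i hi => ?_
          rw [Finset.sum_comm]
          calc _ ≤ ∑ f ∈ SB c (Y i), C * ((3 : ℝ) ^ f.primeFactors.card / f) * L := by
                refine Finset.sum_le_sum fun f hf => ?_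
                rw [← Finset.sum_filter]
                exact h5 f (Nat.pos_of_ne_zero (SB_prop hf).2.1.ne_zero)
            _ = C * (∑ f ∈ SB c (Y i), (3 : ℝ) ^ f.primeFactors.card / f) * L := by
                rw [Finset.mul_sum, Finset.sum_mul]
            _ ≤ C * η * L := by
                refine mul_le_mul_of_nonneg_right ?_ hL
                exact mul_le_mul_of_nonneg_left (hη i (mem_range.1 hi)) hC
      _ = _ := by
          rw [Finset.sum_const, card_range, nsmul_eq_mul]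
          ring
  have e2 : 4 / 2 ^ R * ∑ s ∈ Tup (Fin 3) z y, mu s * ∑ E ∈ (∏ j, s j).primeFactors.powerset,
      (NL (∏ j, s j) (LF s E) : ℝ) ≤ c1 / 8 * L := by
    calc _ ≤ 4 / 2 ^ R * (C * L) := mul_le_mul_of_nonneg_left h4 (by positivity)
      _ = (4 / 2 ^ R * C) * L := by ring
      _ ≤ _ := mul_le_mul_of_nonneg_right hR hL
  have e5 : R * (C * η) * L ≤ c1 / 4 * L := mul_le_mul_of_nonneg_right hη2 hL
  have e6 : c1 * L = c1 / 2 * L + c1 / 8 * L + c1 / 8 * L + c1 / 4 * L := by ring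
  linarith

end Pool.Agent.Y678.RP
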